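import Mathlib

set_option autoImplicit false

namespace Pool.Agent.H462Z.RB

/-- evaluate `x` before passing it on -/
noncomputable def force (x : Nat) (f : Nat → Nat) : Nat :=
  Nat.rec (motive := fun _ => Nat) 0 (fun n _ => f n) (Nat.add x 1)

theorem force_eq (x : Nat) (f : Nat → Nat) : force x f = f x := rfl

def lab (col i : Nat) : Nat := Nat.land (Nat.shiftRight col (Nat.mul 5 i)) 31

def put (col i k : Nat) : Nat := Nat.lor col (Nat.shiftLeft k (Nat.mul 5 i))

def nib (p u : Nat) : Nat := Nat.land (Nat.shiftRight p (Nat.mul 4 u)) 15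

def bit (k : Nat) : Nat := Nat.shiftLeft 1 k

def swp (i : Nat) : Nat := Nat.add (Nat.shiftRight i 4) (Nat.mul 16 (Nat.land i 15))

def vis (p : Nat) : Nat :=
  Nat.lor (Nat.lor (Nat.lor (Nat.lor (bit (Nat.land p 15)) (bit (nib p 1))) (Nat.lor (bit (nib p 2)) (bit (nib p 3))))
    (Nat.lor (Nat.lor (bit (nib p 4)) (bit (nib p 5))) (Nat.lor (bit (nib p 6)) (bit (nib p 7)))))
    (Nat.lor (bit (nib p 8)) (bit (nib p 9)))

/-- walks along the path, 1 if all labels are new -/
noncomputable def pathLoop (col n : Nat) : Nat → Nat → Nat :=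
  Nat.rec (motive := fun _ => Nat → Nat → Nat) (fun _ _ => 1)
    (fun _ ih x used => force (bit (lab col (Nat.land x 255))) fun b =>
      cond (Nat.beq (Nat.land used b) 0) (ih (Nat.shiftRight x 4) (Nat.lor used b)) 0) n

noncomputable def pathOK (T col p : Nat) : Bool :=
  cond (Nat.beq (vis p) 1023) (Nat.beq (pathLoop col (Nat.pred T) p 1) 1) false

noncomputable def patLoop (col p : Nat) (pat : List Nat) : Nat → Nat → Nat :=
  List.rec (motive := fun _ => Nat → Nat → Nat) (fun _ _ => 1)
    (fun e _ ih fwd used =>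
      force (lab col (Nat.add (nib p (Nat.land e 15)) (Nat.mul 16 (nib p (Nat.land (Nat.shiftRight e 4) 15))))) fun s =>
      force (lab fwd (Nat.shiftRight e 8)) fun t =>
      cond (Nat.beq t 0)
        (cond (Nat.beq (Nat.land used (bit s)) 0)
          (force (put fwd (Nat.shiftRight e 8) s) fun fwd' => ih fwd' (Nat.lor used (bit s))) 0)
        (cond (Nat.beq t s) (ih fwd used) 0)) pat

noncomputable def patOK (col p : Nat) (pat : List Nat) : Bool :=
  cond (Nat.beq (vis p) 1023) (Nat.beq (patLoop col p pat 0 1) 1) false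

/-- the `n`-th lemma; `none` is coded by the continuation's first argument -/
noncomputable def nth (l : List (List Nat)) : Nat → (List Nat → Bool) → Bool :=
  List.rec (motive := fun _ => Nat → (List Nat → Bool) → Bool) (fun _ _ => false)
    (fun q _ ih n f => Nat.rec (motive := fun _ => Bool) (f q) (fun m _ => ih m f) n) l

def rowMask (r : Nat) : Nat :=
  Nat.lor (Nat.lor (Nat.lor (Nat.lor (bit (lab r 0)) (bit (lab r 1))) (Nat.lor (bit (lab r 2)) (bit (lab r 3))))
    (Nat.lor (Nat.lor (bit (lab r 4)) (bit (lab r 5))) (Nat.lor (bit (lab r 6)) (bit (lab r 7)))))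
    (Nat.lor (bit (lab r 8)) (bit (lab r 9)))

def todo0 (col ncol i : Nat) : Nat :=
  Nat.land (Nat.sub (Nat.shiftLeft 2 ncol) 2)
    (Nat.xor (Nat.lor (rowMask (Nat.shiftRight col (Nat.mul 80 (Nat.land i 15))))
      (rowMask (Nat.shiftRight col (Nat.mul 80 (Nat.shiftRight i 4))))) 8589934591)

def edgeOK (col ncol i : Nat) : Bool :=
  cond (Nat.ble (Nat.land i 15) 9) (cond (Nat.ble (Nat.shiftRight i 4) 9)
    (cond (Nat.beq (Nat.land i 15) (Nat.shiftRight i 4)) false
      (cond (Nat.beq (lab col i) 0) (cond (Nat.beq (lab col (swp i)) 0) (Nat.ble ncol 31) false) false)) false) false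

abbrev Rec : Type := List Nat → Nat → Nat → List (List Nat) → Nat → Nat

noncomputable def valLoop (T : Nat) (rc : Rec) (pat : List Nat) (col ncol i : Nat) (n : Nat) :
    Nat → List (List Nat) → Nat → Nat → Nat :=
  Nat.rec (motive := fun _ => Nat → List (List Nat) → Nat → Nat → Nat) (fun _ _ _ _ => 0)
    (fun _ ih todo lems last s =>
      cond (Nat.beq todo 0) (Nat.succ s)
      (force (Nat.land s 31) fun k =>
       force (Nat.land (Nat.shiftRight s 5) 7) fun ty =>
       force (put (put col i k) (swp i) k) fun col' =>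
       force (Nat.xor todo (bit k)) fun todo' =>
       force (Nat.shiftRight s 8) fun s1 =>
       cond (Nat.beq (Nat.land todo (bit k)) 0) 0
        (cond (Nat.beq ty 1) (cond (pathOK T col' last) (ih todo' lems last s1) 0)
        (cond (Nat.beq ty 3)
          (Nat.rec (motive := fun _ => Nat) 0
            (fun s2 _ => ih todo' (List.cons (List.cons (Nat.add i (Nat.mul 256 k)) pat) lems) last s2)
            (rc (List.cons (Nat.add i (Nat.mul 256 k)) pat) col' (cond (Nat.beq k ncol) (Nat.succ ncol) ncol) lems s1))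
          (force (Nat.land s1 1099511627775) fun p =>
           force (Nat.shiftRight s1 40) fun s2 =>
           cond (Nat.beq ty 0) (cond (pathOK T col' p) (ih todo' lems p s2) 0)
            (cond (nth lems (Nat.land s2 255) (patOK col' p))
              (force (Nat.shiftRight s2 8) fun s3 => ih todo' lems last s3) 0)))))) n

noncomputable def node (T : Nat) (rc : Rec) (pat : List Nat) (col ncol : Nat) (lems : List (List Nat))
    (s : Nat) : Nat :=
  force ncol fun ncol =>
  force (Nat.land s 255) fun i =>
  force (Nat.shiftRight s 8) fun s1 =>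
  cond (edgeOK col ncol i) (force (todo0 col ncol i) fun td => valLoop T rc pat col ncol i 40 td lems 0 s1) 0

noncomputable def check (T fuel : Nat) : Rec :=
  Nat.rec (motive := fun _ => Rec) (fun _ _ _ _ _ => 0) (fun _ rc => node T rc) fuel

noncomputable def build (pat : List Nat) : Nat :=
  List.rec (motive := fun _ => Nat) 0
    (fun e _ col => force col fun col =>
      cond (edgeOK col (Nat.shiftRight e 8) (Nat.land e 255))
        (put (put col (Nat.land e 255) (Nat.shiftRight e 8)) (swp (Nat.land e 255)) (Nat.shiftRight e 8)) col) pat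

noncomputable def labsOK (ncol : Nat) (pat : List Nat) : Bool :=
  List.rec (motive := fun _ => Bool) true
    (fun e _ ih => cond (Nat.ble 1 (Nat.shiftRight e 8)) (cond (Nat.ble (Nat.succ (Nat.shiftRight e 8)) ncol) ih false) false) pat

noncomputable def run (T : Nat) (pat : List Nat) (ncol : Nat) (lems : List (List Nat)) (s : Nat) : Bool :=
  cond (labsOK ncol pat) (Nat.beq (force (build pat) fun col => check T 60 pat col ncol lems s) 1) false

end Pool.Agent.H462Z.RB
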