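import Pool.Agent.H462Z.RB.C6

set_option autoImplicit false

namespace Pool.Agent.H462Z.RB

theorem extend (m : Nat) (hm : m ≤ 10) (p : Nat → Nat) (h1 : ∀ i, i < m → p i < 10)
    (h2 : ∀ i j, i < m → j < m → p i = p j → i = j) :
    ∃ q : Nat → Nat, (∀ i, i < 10 → q i < 10) ∧ (∀ i j, i < 10 → j < 10 → q i = q j → i = j) ∧
      ∀ i, i < m → q i = p i := by
  obtain ⟨σ, hσ⟩ := Equiv.Perm.exists_extending_pair (α := Fin m) (β := Fin 10)
    (Fin.castLE hm) (fun i => ⟨p i, h1 i i.2⟩) (Fin.castLE_injective hm)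
    (fun i j h => Fin.ext (h2 i j i.2 j.2 (congrArg Fin.val h)))
  refine ⟨fun i => if h : i < 10 then (σ ⟨i, h⟩ : Nat) else 0, fun i hi => ?_, fun i j hi hj h => ?_,
    fun i hi => ?_⟩
  · simp only [hi, dif_pos]; exact (σ ⟨i, hi⟩).2
  · simp only [hi, hj, dif_pos] at h
    exact congrArg Fin.val (σ.injective (Fin.ext h))
  · have h3 : i < 10 := by omega
    simp only [h3, dif_pos]
    exact congrArg Fin.val (hσ ⟨i, hi⟩)

theorem down {L : Nat} {pat : List Nat} (hL : L ≤ 8) (hr : Ref (L + 2) pat)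
    (hp : ∀ e ∈ pat, U e < L ∧ V e = U e + 1 ∧ K e = U e + 1) {c : Nat → Nat → Nat}
    (hb : Bad (L + 2) c) : Bad (L + 1) c := by
  refine ⟨hb.symm, hb.prop, fun p h1 h2 => ?_⟩
  by_contra hn
  push Not at hn
  obtain ⟨q, q1, q2, q3⟩ := extend (L + 1) (by omega) p h1 h2
  refine hr _ (hb.comp q q1 q2) fun e he f hf => ?_
  obtain ⟨a1, a2, a3⟩ := hp e he
  obtain ⟨b1, b2, b3⟩ := hp f hf
  show c (q (U e)) (q (V e)) = c (q (U f)) (q (V f)) ↔ _
  rw [a2, a3, b2, b3, q3 _ (by omega), q3 _ (by omega), q3 _ (by omega), q3 _ (by omega)]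
  constructor
  · intro h
    rcases lt_trichotomy (U e) (U f) with h4 | h4 | h4
    · exact absurd h (hn _ _ h4 (by omega))
    · rw [h4]
    · exact absurd h.symm (hn _ _ h4 (by omega))
  · intro h
    rw [show U e = U f by omega]

theorem not_bad (c : Nat → Nat → Nat) : ¬ Bad 10 c := by
  intro h10
  have h9 := down (L := 8) (by norm_num) r8_0 (by decide) h10
  have h8 := down (L := 7) (by norm_num) r7_0 (by decide) h9
  have h7 := down (L := 6) (by norm_num) r6_0 (by decide) h8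
  have h6 := down (L := 5) (by norm_num) r5_0 (by decide) h7
  have h5 := down (L := 4) (by norm_num) r4_0 (by decide) h6
  have h4 := down (L := 3) (by norm_num) r3_0 (by decide) h5
  have h3 := down (L := 2) (by norm_num) r2_0 (by decide) h4
  have h2 := down (L := 1) (by norm_num) r1_0 (by decide) h3
  obtain ⟨i, j, h1, h, -⟩ := h2.norb id (fun i hi => by simp only [id]; omega) (fun i j _ _ h => h)
  omega

/-- every proper edge colouring of the complete graph on ten vertices has a rainbow Hamiltonian path -/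
theorem ten (c : Fin 10 → Fin 10 → ℕ) (hs : ∀ u v : Fin 10, c u v = c v u)
    (hp : ∀ u v w : Fin 10, u ≠ v → u ≠ w → v ≠ w → c u v ≠ c u w)
    (hn : ∀ p : ℕ → Fin 10, (∀ i j : ℕ, i < 10 → j < 10 → p i = p j → i = j) →
      ∃ i j : ℕ, i < j ∧ j + 1 < 10 ∧ c (p i) (p (i + 1)) = c (p j) (p (j + 1))) : False := by
  let g : ℕ → Fin 10 := fun u => ⟨u % 10, Nat.mod_lt _ (by norm_num)⟩
  have hg : ∀ u v, u < 10 → v < 10 → g u = g v → u = v := by
    intro u v hu hv h
    have := congrArg Fin.val h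
    simp only [g] at this
    omega
  refine not_bad (fun u v => c (g u) (g v)) ⟨fun u v => hs _ _, fun u v w hu hv hw h1 h2 h3 => ?_,
    fun p h1 h2 => ?_⟩
  · exact hp _ _ _ (fun h => h1 (hg _ _ hu hv h)) (fun h => h2 (hg _ _ hu hw h)) (fun h => h3 (hg _ _ hv hw h))
  · exact hn (fun i => g (p i)) fun i j hi hj h => h2 i j hi hj (hg _ _ (h1 i hi) (h1 j hj) h)

end Pool.Agent.H462Z.RB
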