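import Pool.Agent.H462Z.RB.Check

set_option autoImplicit false

namespace Pool.Agent.H462Z.RB

def U (e : Nat) : Nat := e % 16
def V (e : Nat) : Nat := e / 16 % 16
def K (e : Nat) : Nat := e / 256

structure Bad (T : Nat) (c : Nat → Nat → Nat) : Prop where
  symm : ∀ u v, c u v = c v u
  prop : ∀ u v w, u < 10 → v < 10 → w < 10 → u ≠ v → u ≠ w → v ≠ w → c u v ≠ c u w
  norb : ∀ p : Nat → Nat, (∀ i, i < T → p i < 10) → (∀ i j, i < T → j < T → p i = p j → i = j) →
    ∃ i j, i < j ∧ j + 1 < T ∧ c (p i) (p (i + 1)) = c (p j) (p (j + 1))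

def Mat (c : Nat → Nat → Nat) (pat : List Nat) : Prop :=
  ∀ e ∈ pat, ∀ f ∈ pat, (c (U e) (V e) = c (U f) (V f) ↔ K e = K f)

def Ref (T : Nat) (pat : List Nat) : Prop := ∀ c, Bad T c → ¬ Mat c pat

def AllRef (T : Nat) (l : List (List Nat)) : Prop := ∀ p ∈ l, Ref T p

theorem fnil {T : Nat} : AllRef T [] := fun _ h => by simp at h

theorem fa {T : Nat} {p : List Nat} {l : List (List Nat)} (h : Ref T p) (hl : AllRef T l) :
    AllRef T (p :: l) := fun q hq => by
  rcases List.mem_cons.1 hq with rfl | h'
  · exact h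
  · exact hl q h'

def ColOK (c : Nat → Nat → Nat) (col : Nat) : Prop :=
  ∀ i j, i < 256 → j < 256 → lab col i ≠ 0 → lab col j ≠ 0 →
    (c (i % 16) (i / 16) = c (j % 16) (j / 16) ↔ lab col i = lab col j)

theorem land15 (x : Nat) : Nat.land x 15 = x % 16 := Nat.and_two_pow_sub_one_eq_mod x 4
theorem land31 (x : Nat) : Nat.land x 31 = x % 32 := Nat.and_two_pow_sub_one_eq_mod x 5
theorem land255 (x : Nat) : Nat.land x 255 = x % 256 := Nat.and_two_pow_sub_one_eq_mod x 8
theorem shr (x n : Nat) : Nat.shiftRight x n = x / 2 ^ n := Nat.shiftRight_eq_div_pow x n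

theorem lab_lt (col i : Nat) : lab col i < 32 := by
  unfold lab; rw [land31]; omega

theorem tb_lab (col i t : Nat) : (lab col i).testBit t = (decide (t < 5) && col.testBit (5 * i + t)) := by
  unfold lab
  rw [land31]
  have : (32 : Nat) = 2 ^ 5 := rfl
  rw [this, Nat.testBit_mod_two_pow]
  congr 1
  exact Nat.testBit_shiftRight col

theorem tb_put (col i k t : Nat) :
    (put col i k).testBit t = (col.testBit t || (decide (t ≥ 5 * i) && k.testBit (t - 5 * i))) := by
  unfold put
  have h1 := Nat.testBit_or col (k <<< (5 * i)) t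
  have h2 := Nat.testBit_shiftLeft (i := 5 * i) (j := t) k
  rw [h2] at h1
  exact h1

theorem tb_small {k t : Nat} (hk : k < 32) (ht : 5 ≤ t) : k.testBit t = false :=
  Nat.testBit_lt_two_pow (lt_of_lt_of_le hk (Nat.pow_le_pow_right (by norm_num) ht : 2 ^ 5 ≤ 2 ^ t))

theorem lab_put_same {col i k : Nat} (h : lab col i = 0) (hk : k < 32) : lab (put col i k) i = k := by
  apply Nat.eq_of_testBit_eq
  intro t
  have h0 := tb_lab col i t
  rw [h, Nat.zero_testBit] at h0
  rw [tb_lab, tb_put]
  by_cases ht : t < 5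
  · simp only [ht, decide_true, Bool.true_and] at h0 ⊢
    rw [← h0]
    simp
  · rw [tb_small hk (show 5 ≤ t by omega)]
    simp [ht]

theorem lab_put_ne {col i k j : Nat} (hk : k < 32) (h : j ≠ i) : lab (put col i k) j = lab col j := by
  apply Nat.eq_of_testBit_eq
  intro t
  rw [tb_lab, tb_lab, tb_put]
  by_cases ht : t < 5
  · by_cases h1 : 5 * j + t ≥ 5 * i
    · rw [tb_small hk (show 5 ≤ 5 * j + t - 5 * i by omega)]
      simp
    · simp [h1]
  · simp [ht]

theorem bit_eq (k : Nat) : bit k = 2 ^ k := by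
  unfold bit
  exact Nat.one_shiftLeft k

theorem tb_bit (k t : Nat) : (bit k).testBit t = decide (k = t) := by
  rw [bit_eq]; exact Nat.testBit_two_pow

theorem tb_lor (a b t : Nat) : (Nat.lor a b).testBit t = (a.testBit t || b.testBit t) := Nat.testBit_or a b t
theorem tb_land (a b t : Nat) : (Nat.land a b).testBit t = (a.testBit t && b.testBit t) := Nat.testBit_and a b t
theorem tb_xor (a b t : Nat) : (Nat.xor a b).testBit t = (a.testBit t ^^ b.testBit t) := Nat.testBit_xor a b t

theorem land_bit_zero {a k : Nat} : Nat.land a (bit k) = 0 ↔ a.testBit k = false := by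
  constructor
  · intro h
    have := tb_land a (bit k) k
    rw [h, Nat.zero_testBit, tb_bit] at this
    simpa using this.symm
  · intro h
    apply Nat.eq_of_testBit_eq
    intro t
    rw [tb_land, tb_bit, Nat.zero_testBit]
    by_cases h1 : k = t
    · subst h1; simp [h]
    · simp [h1]

theorem nib_eq (p u : Nat) : nib p u = p / 2 ^ (4 * u) % 16 := by
  unfold nib; rw [land15, shr]; rfl

theorem nib_lt (p u : Nat) : nib p u < 16 := by rw [nib_eq]; omega

theorem tb_vis (p t : Nat) : (vis p).testBit t = true ↔ ∃ j, j < 10 ∧ nib p j = t := by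
  have h0 : Nat.land p 15 = nib p 0 := rfl
  unfold vis
  rw [h0]
  simp only [tb_lor, tb_bit, Bool.or_eq_true, decide_eq_true_eq]
  constructor
  · rintro ((((h | h) | (h | h)) | ((h | h) | (h | h))) | (h | h)) <;> exact ⟨_, by norm_num, h⟩
  · rintro ⟨j, hj, h⟩
    interval_cases j <;> simp [h]

theorem vis_perm {p : Nat} (h : vis p = 1023) :
    (∀ i, i < 10 → nib p i < 10) ∧ (∀ i j, i < 10 → j < 10 → nib p i = nib p j → i = j) := by
  have h1 : ∀ i, i < 10 → nib p i < 10 := by
    intro i hi
    have h2 := (tb_vis p (nib p i)).2 ⟨i, hi, rfl⟩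
    rw [h] at h2
    have h3 : (1023 : Nat) = 2 ^ 10 - 1 := rfl
    rw [h3, Nat.testBit_two_pow_sub_one] at h2
    simpa using h2
  refine ⟨h1, ?_⟩
  let f : Fin 10 → Fin 10 := fun i => ⟨nib p i, h1 i i.2⟩
  have hs : Function.Surjective f := by
    intro v
    have h2 : (vis p).testBit v = true := by
      rw [h]
      have h3 : (1023 : Nat) = 2 ^ 10 - 1 := rfl
      rw [h3, Nat.testBit_two_pow_sub_one]
      simp
    obtain ⟨j, hj, h4⟩ := (tb_vis p v).1 h2
    exact ⟨⟨j, hj⟩, Fin.ext h4⟩
  have hi := Finite.injective_iff_surjective.2 hs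
  intro i j hi' hj' hh
  have := @hi ⟨i, hi'⟩ ⟨j, hj'⟩ (Fin.ext hh)
  exact congrArg Fin.val this

theorem pathLoop_succ (col n x used : Nat) : pathLoop col (n + 1) x used =
    cond (Nat.beq (Nat.land used (bit (lab col (Nat.land x 255)))) 0)
      (pathLoop col n (Nat.shiftRight x 4) (Nat.lor used (bit (lab col (Nat.land x 255))))) 0 := rfl

theorem pathLoop_spec (col : Nat) : ∀ n x used, pathLoop col n x used = 1 →
    (∀ j, j < n → used.testBit (lab col (x / 2 ^ (4 * j) % 256)) = false) ∧
    (∀ i j, i < j → j < n → lab col (x / 2 ^ (4 * i) % 256) ≠ lab col (x / 2 ^ (4 * j) % 256)) := by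
  intro n
  induction n with
  | zero => intro x used _; exact ⟨fun j hj => by omega, fun i j _ hj => by omega⟩
  | succ n ih =>
    intro x used h
    rw [pathLoop_succ] at h
    cases hb : Nat.beq (Nat.land used (bit (lab col (Nat.land x 255)))) 0
    · rw [hb] at h; simp at h
    rw [hb, cond_true] at h
    have h0 := land_bit_zero.1 (Nat.eq_of_beq_eq_true hb)
    obtain ⟨h1, h2⟩ := ih _ _ h
    rw [land255] at h0 h1
    rw [shr] at h1 h2
    have key : ∀ j, x / 2 ^ 4 / 2 ^ (4 * j) = x / 2 ^ (4 * (j + 1)) := by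
      intro j
      rw [Nat.div_div_eq_div_mul, ← pow_add]
      congr 2
      ring
    simp only [key] at h1 h2
    constructor
    · intro j hj
      cases j with
      | zero => simpa using h0
      | succ j =>
        have := h1 j (by omega)
        rw [tb_lor] at this
        simp only [Bool.or_eq_false_iff] at this
        exact this.1
    · intro i j hij hj
      cases j with
      | zero => omega
      | succ j =>
        cases i with
        | zero =>
          have := h1 j (by omega)
          rw [tb_lor, tb_bit] at this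
          simp only [Bool.or_eq_false_iff, decide_eq_false_iff_not] at this
          simpa using this.2
        | succ i => exact h2 i j (by omega) (by omega)

theorem idx_mod (p j : Nat) : p / 2 ^ (4 * j) % 256 % 16 = nib p j := by
  rw [nib_eq]; omega

theorem idx_div (p j : Nat) : p / 2 ^ (4 * j) % 256 / 16 = nib p (j + 1) := by
  rw [nib_eq]
  have : p / 2 ^ (4 * (j + 1)) = p / 2 ^ (4 * j) / 16 := by
    rw [Nat.div_div_eq_div_mul, show 4 * (j + 1) = 4 * j + 4 by ring, pow_add]
    norm_num
  rw [this]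
  omega

theorem pathOK_sound {T col p : Nat} {c : Nat → Nat → Nat} (hT : T ≤ 10) (hb : Bad T c) (hc : ColOK c col)
    (h : pathOK T col p = true) : False := by
  unfold pathOK at h
  cases hv : Nat.beq (vis p) 1023
  · rw [hv] at h; simp at h
  rw [hv, cond_true] at h
  obtain ⟨v1, v2⟩ := vis_perm (Nat.eq_of_beq_eq_true hv)
  obtain ⟨h1, h2⟩ := pathLoop_spec col _ _ _ (Nat.eq_of_beq_eq_true h)
  obtain ⟨i, j, hij, hj, hh⟩ := hb.norb (nib p) (fun i hi => v1 i (by omega))
    (fun i j hi hj => v2 i j (by omega) (by omega))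
  have hp : T.pred = T - 1 := rfl
  have nz : ∀ j, j < T.pred → lab col (p / 2 ^ (4 * j) % 256) ≠ 0 := by
    intro j hj h0
    have := h1 j hj
    rw [h0] at this
    simp at this
  have := hc (p / 2 ^ (4 * i) % 256) (p / 2 ^ (4 * j) % 256) (by omega) (by omega)
    (nz i (by omega)) (nz j (by omega))
  rw [idx_mod, idx_mod, idx_div, idx_div] at this
  exact h2 i j hij (by omega) (this.1 hh)

def FI (fwd used : Nat) : Prop :=
  used.testBit 0 = true ∧ (∀ k, lab fwd k ≠ 0 → used.testBit (lab fwd k) = true) ∧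
    (∀ k k', lab fwd k ≠ 0 → lab fwd k = lab fwd k' → k = k')

def sl (col p e : Nat) : Nat := lab col (nib p (U e) + 16 * nib p (V e))

theorem patLoop_cons (col p e : Nat) (pat : List Nat) (fwd used : Nat) :
    patLoop col p (e :: pat) fwd used =
      cond (Nat.beq (lab fwd (K e)) 0)
        (cond (Nat.beq (Nat.land used (bit (sl col p e))) 0)
          (patLoop col p pat (put fwd (K e) (sl col p e)) (Nat.lor used (bit (sl col p e)))) 0)
        (cond (Nat.beq (lab fwd (K e)) (sl col p e)) (patLoop col p pat fwd used) 0) := by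
  have h1 : K e = Nat.shiftRight e 8 := by rw [shr]; rfl
  have h2 : U e = Nat.land e 15 := by rw [land15]; rfl
  have h3 : V e = Nat.land (Nat.shiftRight e 4) 15 := by rw [land15, shr]; rfl
  unfold sl
  rw [h1, h2, h3]
  rfl

theorem patLoop_spec (col p : Nat) : ∀ (pat : List Nat) (fwd used : Nat), patLoop col p pat fwd used = 1 →
    FI fwd used → ∃ fwd' used', FI fwd' used' ∧ (∀ k, lab fwd k ≠ 0 → lab fwd' k = lab fwd k) ∧
      ∀ e ∈ pat, sl col p e ≠ 0 ∧ lab fwd' (K e) = sl col p e := by
  intro pat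
  induction pat with
  | nil => intro fwd used _ h; exact ⟨fwd, used, h, fun _ _ => rfl, fun e he => by simp at he⟩
  | cons e pat ih =>
    intro fwd used h hf
    rw [patLoop_cons] at h
    have hs : sl col p e < 32 := lab_lt _ _
    cases h0 : Nat.beq (lab fwd (K e)) 0
    · rw [h0, cond_false] at h
      cases h1 : Nat.beq (lab fwd (K e)) (sl col p e)
      · rw [h1] at h; simp at h
      rw [h1, cond_true] at h
      have h2 := Nat.eq_of_beq_eq_true h1
      have h3 := Nat.ne_of_beq_eq_false h0
      obtain ⟨f', u', a1, a2, a3⟩ := ih _ _ h hf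
      refine ⟨f', u', a1, a2, fun e' he' => ?_⟩
      rcases List.mem_cons.1 he' with rfl | he'
      · exact ⟨h2 ▸ h3, by rw [a2 _ h3, h2]⟩
      · exact a3 e' he'
    · rw [h0, cond_true] at h
      have hz := Nat.eq_of_beq_eq_true h0
      cases h1 : Nat.beq (Nat.land used (bit (sl col p e))) 0
      · rw [h1] at h; simp at h
      rw [h1, cond_true] at h
      have h2 := land_bit_zero.1 (Nat.eq_of_beq_eq_true h1)
      have hne : sl col p e ≠ 0 := by
        intro h3
        rw [h3, hf.1] at h2
        simp at h2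
      have hsame := lab_put_same hz hs
      have hf' : FI (put fwd (K e) (sl col p e)) (Nat.lor used (bit (sl col p e))) := by
        refine ⟨by rw [tb_lor, hf.1]; simp, fun k hk => ?_, fun k k' hk hkk => ?_⟩
        · rw [tb_lor]
          by_cases h3 : k = K e
          · rw [h3, hsame, tb_bit]; simp
          · rw [lab_put_ne hs h3] at hk ⊢
            rw [hf.2.1 k hk]; simp
        · by_cases h3 : k = K e
          · by_cases h4 : k' = K e
            · rw [h3, h4]
            · rw [h3, hsame, lab_put_ne hs h4] at hkk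
              have := hf.2.1 k' (hkk ▸ hne)
              rw [← hkk, h2] at this
              simp at this
          · rw [lab_put_ne hs h3] at hk hkk
            by_cases h4 : k' = K e
            · rw [h4, hsame] at hkk
              have := hf.2.1 k hk
              rw [hkk, h2] at this
              simp at this
            · rw [lab_put_ne hs h4] at hkk
              exact hf.2.2 k k' hk hkk
      obtain ⟨f', u', a1, a2, a3⟩ := ih _ _ h hf'
      refine ⟨f', u', a1, fun k hk => ?_, fun e' he' => ?_⟩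
      · have h3 : k ≠ K e := fun h3 => hk (h3 ▸ hz)
        have := a2 k (by rw [lab_put_ne hs h3]; exact hk)
        rw [this, lab_put_ne hs h3]
      · rcases List.mem_cons.1 he' with rfl | he'
        · refine ⟨hne, ?_⟩
          rw [a2 _ (by rw [hsame]; exact hne), hsame]
        · exact a3 e' he'

theorem Bad.comp {T : Nat} {c : Nat → Nat → Nat} (hb : Bad T c) (q : Nat → Nat)
    (v1 : ∀ i, i < 10 → q i < 10) (v2 : ∀ i j, i < 10 → j < 10 → q i = q j → i = j) :
    Bad T (fun u v => c (q u) (q v)) := by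
  refine ⟨fun u v => hb.symm _ _, fun u v w hu hv hw h1 h2 h3 => ?_, fun r hr hi => ?_⟩
  · exact hb.prop _ _ _ (v1 u hu) (v1 v hv) (v1 w hw) (fun h => h1 (v2 _ _ hu hv h))
      (fun h => h2 (v2 _ _ hu hw h)) (fun h => h3 (v2 _ _ hv hw h))
  · exact hb.norb (fun i => q (r i)) (fun i hi' => v1 _ (hr i hi'))
      (fun i j hi' hj' h => hi i j hi' hj' (v2 _ _ (hr i hi') (hr j hj') h))

theorem patOK_sound {T col p : Nat} {c : Nat → Nat → Nat} {pat : List Nat} (hb : Bad T c) (hc : ColOK c col)
    (hr : Ref T pat) (h : patOK col p pat = true) : False := by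
  unfold patOK at h
  cases hv : Nat.beq (vis p) 1023
  · rw [hv] at h; simp at h
  rw [hv, cond_true] at h
  obtain ⟨v1, v2⟩ := vis_perm (Nat.eq_of_beq_eq_true hv)
  have l0 : ∀ k, lab 0 k = 0 := by
    intro k; unfold lab; rw [land31, shr]; simp
  obtain ⟨f, u, a1, -, a3⟩ := patLoop_spec col p pat 0 1 (Nat.eq_of_beq_eq_true h)
    ⟨rfl, fun k hk => absurd (l0 k) hk, fun k k' hk => absurd (l0 k) hk⟩
  refine hr _ (hb.comp (nib p) v1 v2) fun e he e' he' => ?_
  obtain ⟨b1, b2⟩ := a3 e he
  obtain ⟨b3, b4⟩ := a3 e' he'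
  have n1 := nib_lt p (U e)
  have n2 := nib_lt p (V e)
  have n3 := nib_lt p (U e')
  have n4 := nib_lt p (V e')
  have := hc _ _ (by omega) (by omega) b1 b3
  rw [show (nib p (U e) + 16 * nib p (V e)) % 16 = nib p (U e) by omega,
    show (nib p (U e) + 16 * nib p (V e)) / 16 = nib p (V e) by omega,
    show (nib p (U e') + 16 * nib p (V e')) % 16 = nib p (U e') by omega,
    show (nib p (U e') + 16 * nib p (V e')) / 16 = nib p (V e') by omega] at this
  refine this.trans ⟨fun hh => ?_, fun hh => ?_⟩
  · exact a1.2.2 _ _ (by rw [b2]; exact b1) (by rw [b2, b4]; exact hh)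
  · have h5 : sl col p e = sl col p e' := by rw [← b2, ← b4, hh]
    exact h5

theorem nth_spec (f : List Nat → Bool) : ∀ (l : List (List Nat)) (n : Nat), nth l n f = true →
    ∃ q ∈ l, f q = true := by
  intro l
  induction l with
  | nil => intro n h; exact absurd h (by simp [nth])
  | cons q l ih =>
    intro n h
    cases n with
    | zero => exact ⟨q, List.mem_cons_self, h⟩
    | succ n =>
      obtain ⟨q', h1, h2⟩ := ih n h
      exact ⟨q', List.mem_cons_of_mem _ h1, h2⟩

end Pool.Agent.H462Z.RB
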