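import Pool.Agent.H462Z.RB.Sound1

set_option autoImplicit false

namespace Pool.Agent.H462Z.RB

def Inv (pat : List Nat) (col : Nat) : Prop :=
  (∀ i, i < 256 → lab col i ≠ 0 → ∃ e ∈ pat, K e = lab col i ∧
    ((U e = i % 16 ∧ V e = i / 16) ∨ (V e = i % 16 ∧ U e = i / 16))) ∧
  (∀ a, lab col (17 * a) = 0)

def LabB (pat : List Nat) (ncol : Nat) : Prop := ∀ e ∈ pat, 1 ≤ K e ∧ K e < ncol

theorem Inv.colOK {T : Nat} {c : Nat → Nat → Nat} {pat : List Nat} {col : Nat} (h : Inv pat col)
    (hb : Bad T c) (hm : Mat c pat) : ColOK c col := by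
  intro i j hi hj h1 h2
  obtain ⟨e, he, k1, h3⟩ := h.1 i hi h1
  obtain ⟨f, hf, k2, h4⟩ := h.1 j hj h2
  have a1 : c (i % 16) (i / 16) = c (U e) (V e) := by
    rcases h3 with ⟨a, b⟩ | ⟨a, b⟩
    · rw [a, b]
    · rw [a, b, hb.symm]
  have a2 : c (j % 16) (j / 16) = c (U f) (V f) := by
    rcases h4 with ⟨a, b⟩ | ⟨a, b⟩
    · rw [a, b]
    · rw [a, b, hb.symm]
  rw [a1, a2, ← k1, ← k2]
  exact hm e he f hf

theorem swp_eq (i : Nat) : swp i = i / 16 + 16 * (i % 16) := by
  unfold swp; rw [land15, shr]; rfl

theorem edgeOK_spec {col ncol i : Nat} (h : edgeOK col ncol i = true) :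
    i % 16 ≤ 9 ∧ i / 16 ≤ 9 ∧ i % 16 ≠ i / 16 ∧ lab col i = 0 ∧ lab col (swp i) = 0 ∧ ncol ≤ 31 := by
  unfold edgeOK at h
  rw [land15, shr] at h
  simp only [Bool.cond_eq_ite, Nat.ble_eq, Nat.beq_eq] at h
  split_ifs at h with h1 h2 h3 h4 h5
  exact ⟨h1, h2, h3, h4, h5, by simpa using h⟩

theorem Inv.step {pat : List Nat} {col ncol i k : Nat} (h : Inv pat col) (he : edgeOK col ncol i = true)
    (hk : k ≤ ncol) : Inv ((i + 256 * k) :: pat) (put (put col i k) (swp i) k) := by
  obtain ⟨h1, h2, h3, h4, h5, h6⟩ := edgeOK_spec he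
  have hk' : k < 32 := by omega
  have hs := swp_eq i
  have hne : swp i ≠ i := by omega
  have a1 : lab (put col i k) (swp i) = 0 := by rw [lab_put_ne hk' hne, h5]
  have hK : K (i + 256 * k) = k := by unfold K; omega
  have hU : U (i + 256 * k) = i % 16 := by unfold U; omega
  have hV : V (i + 256 * k) = i / 16 := by unfold V; omega
  constructor
  · intro j hj hl
    by_cases c1 : j = swp i
    · refine ⟨_, List.mem_cons_self, ?_, Or.inr ⟨?_, ?_⟩⟩
      · rw [c1, lab_put_same a1 hk', hK]
      · rw [hV]; omega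
      · rw [hU]; omega
    · rw [lab_put_ne hk' c1] at hl ⊢
      by_cases c2 : j = i
      · refine ⟨_, List.mem_cons_self, ?_, Or.inl ⟨?_, ?_⟩⟩
        · rw [c2, lab_put_same h4 hk', hK]
        · rw [hU, c2]
        · rw [hV, c2]
      · rw [lab_put_ne hk' c2] at hl ⊢
        obtain ⟨e, he, hh⟩ := h.1 j hj hl
        exact ⟨e, List.mem_cons_of_mem _ he, hh⟩
  · intro a
    rw [lab_put_ne hk' (by omega), lab_put_ne hk' (by omega)]
    exact h.2 a

theorem LabB.step {pat : List Nat} {ncol i k : Nat} (h : LabB pat ncol) (hi : i < 256) (h1 : 1 ≤ k)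
    (hk : k ≤ ncol) : LabB ((i + 256 * k) :: pat) (cond (Nat.beq k ncol) (Nat.succ ncol) ncol) := by
  have hK : K (i + 256 * k) = k := by unfold K; omega
  intro e he
  cases hb : Nat.beq k ncol
  · have := Nat.ne_of_beq_eq_false hb
    rcases List.mem_cons.1 he with rfl | he
    · rw [hK, cond_false]; omega
    · exact h e he
  · have := Nat.eq_of_beq_eq_true hb
    rw [cond_true]
    rcases List.mem_cons.1 he with rfl | he
    · rw [hK]; omega
    · have := h e he; omega

theorem lab_shift (col a w : Nat) : lab (Nat.shiftRight col (Nat.mul 80 a)) w = lab col (16 * a + w) := by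
  apply Nat.eq_of_testBit_eq
  intro t
  rw [tb_lab, tb_lab]
  congr 1
  have := Nat.testBit_shiftRight (i := 80 * a) (j := 5 * w + t) col
  rw [show 80 * a + (5 * w + t) = 5 * (16 * a + w) + t by ring] at this
  exact this

theorem tb_rowMask (r t : Nat) : (rowMask r).testBit t = true → ∃ j, j < 10 ∧ lab r j = t := by
  unfold rowMask
  simp only [tb_lor, tb_bit, Bool.or_eq_true, decide_eq_true_eq]
  rintro ((((h | h) | (h | h)) | ((h | h) | (h | h))) | (h | h)) <;> exact ⟨_, by norm_num, h⟩

theorem tb_full (n k : Nat) : (Nat.sub (Nat.shiftLeft 2 n) 2).testBit k = decide (1 ≤ k ∧ k ≤ n) := by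
  have h1 : Nat.sub (Nat.shiftLeft 2 n) 2 = (2 ^ n - 1) <<< 1 := by
    have : Nat.shiftLeft 2 n = 2 * 2 ^ n := Nat.shiftLeft_eq 2 n
    rw [this, Nat.shiftLeft_eq]
    show 2 * 2 ^ n - 2 = _
    omega
  rw [h1, Nat.testBit_shiftLeft, Nat.testBit_two_pow_sub_one]
  by_cases h : 1 ≤ k
  · by_cases h2 : k ≤ n
    · simp [h, h2]; omega
    · simp [h, h2]; omega
  · simp [h]

theorem todo0_sub {col ncol i k : Nat} (h : (todo0 col ncol i).testBit k = true) : 1 ≤ k ∧ k ≤ ncol := by
  unfold todo0 at h
  rw [tb_land, tb_full] at h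
  simp only [Bool.and_eq_true, decide_eq_true_eq] at h
  exact h.1

theorem todo0_not {col ncol i k : Nat} (h : (todo0 col ncol i).testBit k = false) (h1 : 1 ≤ k) (h2 : k ≤ ncol)
    (h3 : ncol ≤ 31) : ∃ w, w < 10 ∧ (lab col (16 * (i % 16) + w) = k ∨ lab col (16 * (i / 16) + w) = k) := by
  unfold todo0 at h
  have h4 : (8589934591 : Nat).testBit k = true := by
    rw [show (8589934591 : Nat) = 2 ^ 33 - 1 from rfl, Nat.testBit_two_pow_sub_one]
    simp; omega
  rw [tb_land, tb_full, tb_xor, h4, tb_lor] at h
  simp only [h1, h2, and_self, decide_true, Bool.true_and, Bool.xor_true, Bool.not_eq_false',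
    Bool.or_eq_true] at h
  rcases h with h | h
  · obtain ⟨w, hw, h5⟩ := tb_rowMask _ _ h
    rw [lab_shift, land15] at h5
    exact ⟨w, hw, Or.inl h5⟩
  · obtain ⟨w, hw, h5⟩ := tb_rowMask _ _ h
    rw [lab_shift, shr] at h5
    exact ⟨w, hw, Or.inr h5⟩

/-- the case distinction on the colour of a new edge -/
theorem branch {T : Nat} {pat : List Nat} {col ncol i : Nat} (hI : Inv pat col) (hL : LabB pat ncol)
    (he : edgeOK col ncol i = true) (hn : 1 ≤ ncol)
    (h : ∀ k, (todo0 col ncol i).testBit k = true → Ref T ((i + 256 * k) :: pat)) : Ref T pat := by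
  intro c hb hm
  obtain ⟨h1, h2, h3, h4, h5, h6⟩ := edgeOK_spec he
  have hK : ∀ k, K (i + 256 * k) = k := by intro k; unfold K; omega
  have hU : ∀ k, U (i + 256 * k) = i % 16 := by intro k; unfold U; omega
  have hV : ∀ k, V (i + 256 * k) = i / 16 := by intro k; unfold V; omega
  have key : ∃ k, 1 ≤ k ∧ k ≤ ncol ∧ Mat c ((i + 256 * k) :: pat) := by
    by_cases hx : ∃ f ∈ pat, c (U f) (V f) = c (i % 16) (i / 16)
    · obtain ⟨f, hf, hc⟩ := hx
      refine ⟨K f, (hL f hf).1, (hL f hf).2.le, fun e he e' he' => ?_⟩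
      rcases List.mem_cons.1 he with rfl | he <;> rcases List.mem_cons.1 he' with rfl | he'
      · simp
      · rw [hK, hU, hV, ← hc]; exact hm f hf e' he'
      · rw [hK, hU, hV, ← hc]; exact hm e he f hf
      · exact hm e he e' he'
    · push Not at hx
      refine ⟨ncol, hn, le_rfl, fun e he e' he' => ?_⟩
      rcases List.mem_cons.1 he with rfl | he <;> rcases List.mem_cons.1 he' with rfl | he'
      · simp
      · rw [hK, hU, hV]
        have := (hL e' he').2
        exact ⟨fun hh => absurd hh.symm (hx e' he'), fun hh => by omega⟩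
      · rw [hK, hU, hV]
        have := (hL e he).2
        exact ⟨fun hh => absurd hh (hx e he), fun hh => by omega⟩
      · exact hm e he e' he'
  obtain ⟨k, k1, k2, hm'⟩ := key
  cases ht : (todo0 col ncol i).testBit k
  · obtain ⟨w, hw, hh⟩ := todo0_not ht k1 k2 h6
    have hs := swp_eq i
    rcases hh with hh | hh
    · obtain ⟨e, he', a1, a2⟩ := hI.1 (16 * (i % 16) + w) (by omega) (by omega)
      have w1 : w ≠ i % 16 := by
        intro h7
        have := hI.2 w
        rw [show 17 * w = 16 * (i % 16) + w by omega] at this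
        omega
      have w2 : w ≠ i / 16 := by
        intro h7
        rw [show swp i = 16 * (i % 16) + w by omega] at h5
        omega
      have b := (hm' _ List.mem_cons_self e (List.mem_cons_of_mem _ he')).2 (by rw [hK, a1, hh])
      rw [hU, hV] at b
      have b2 : c (U e) (V e) = c (i % 16) w := by
        rcases a2 with ⟨a, b⟩ | ⟨a, b⟩
        · rw [a, b, hb.symm]; congr 1 <;> omega
        · rw [a, b]; congr 1 <;> omega
      exact hb.prop (i % 16) (i / 16) w (by omega) (by omega) hw h3 w1.symm w2.symm (b.trans b2)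
    · obtain ⟨e, he', a1, a2⟩ := hI.1 (16 * (i / 16) + w) (by omega) (by omega)
      have w1 : w ≠ i / 16 := by
        intro h7
        have := hI.2 w
        rw [show 17 * w = 16 * (i / 16) + w by omega] at this
        omega
      have w2 : w ≠ i % 16 := by
        intro h7
        rw [show i = 16 * (i / 16) + w by omega] at h4
        omega
      have b := (hm' _ List.mem_cons_self e (List.mem_cons_of_mem _ he')).2 (by rw [hK, a1, hh])
      rw [hU, hV, hb.symm] at b
      have b2 : c (U e) (V e) = c (i / 16) w := by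
        rcases a2 with ⟨a, b⟩ | ⟨a, b⟩
        · rw [a, b, hb.symm]; congr 1 <;> omega
        · rw [a, b]; congr 1 <;> omega
      exact hb.prop (i / 16) (i % 16) w (by omega) (by omega) hw h3.symm w1.symm w2.symm (b.trans b2)
  · exact h k ht c hb hm'

def RecOK (T : Nat) (rc : Rec) : Prop :=
  ∀ pat col ncol lems s, rc pat col ncol lems s ≠ 0 → Inv pat col → LabB pat ncol → 1 ≤ ncol →
    AllRef T lems → Ref T pat

theorem valLoop_succ (T : Nat) (rc : Rec) (pat : List Nat) (col ncol i n todo : Nat)
    (lems : List (List Nat)) (last s : Nat) :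
    valLoop T rc pat col ncol i (n + 1) todo lems last s =
      cond (Nat.beq todo 0) (Nat.succ s)
      (force (Nat.land s 31) fun k =>
       force (Nat.land (Nat.shiftRight s 5) 7) fun ty =>
       force (put (put col i k) (swp i) k) fun col' =>
       force (Nat.xor todo (bit k)) fun todo' =>
       force (Nat.shiftRight s 8) fun s1 =>
       cond (Nat.beq (Nat.land todo (bit k)) 0) 0
        (cond (Nat.beq ty 1) (cond (pathOK T col' last) (valLoop T rc pat col ncol i n todo' lems last s1) 0)
        (cond (Nat.beq ty 3)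
          (Nat.rec (motive := fun _ => Nat) 0
            (fun s2 _ => valLoop T rc pat col ncol i n todo'
              (List.cons (List.cons (Nat.add i (Nat.mul 256 k)) pat) lems) last s2)
            (rc (List.cons (Nat.add i (Nat.mul 256 k)) pat) col' (cond (Nat.beq k ncol) (Nat.succ ncol) ncol) lems s1))
          (force (Nat.land s1 1099511627775) fun p =>
           force (Nat.shiftRight s1 40) fun s2 =>
           cond (Nat.beq ty 0) (cond (pathOK T col' p) (valLoop T rc pat col ncol i n todo' lems p s2) 0)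
            (cond (nth lems (Nat.land s2 255) (patOK col' p))
              (force (Nat.shiftRight s2 8) fun s3 => valLoop T rc pat col ncol i n todo' lems last s3) 0))))) := rfl

theorem cond_ne {b : Bool} {x : Nat} (h : cond b x 0 ≠ 0) : b = true ∧ x ≠ 0 := by
  cases b
  · simp at h
  · exact ⟨rfl, h⟩

theorem valLoop_spec {T : Nat} (hT : T ≤ 10) {rc : Rec} (hrc : RecOK T rc) {pat : List Nat} {col ncol i : Nat}
    (hI : Inv pat col) (hL : LabB pat ncol) (he : edgeOK col ncol i = true) :
    ∀ n todo lems last s, valLoop T rc pat col ncol i n todo lems last s ≠ 0 →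
      (∀ k, todo.testBit k = true → 1 ≤ k ∧ k ≤ ncol) → AllRef T lems →
      ∀ k, todo.testBit k = true → Ref T ((i + 256 * k) :: pat) := by
  intro n
  induction n with
  | zero => intro todo lems last s h; exact absurd rfl h
  | succ n ih =>
    intro todo lems last s h hsub hl
    rw [valLoop_succ] at h
    cases h0 : Nat.beq todo 0
    swap
    · intro k hk
      rw [Nat.eq_of_beq_eq_true h0] at hk
      simp at hk
    rw [h0, cond_false] at h
    simp only [force_eq] at h
    generalize Nat.land s 31 = k at h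
    generalize Nat.land (Nat.shiftRight s 5) 7 = ty at h
    generalize Nat.shiftRight s 8 = s1 at h
    cases h1 : Nat.beq (Nat.land todo (bit k)) 0
    swap
    · rw [h1] at h; simp at h
    rw [h1, cond_false] at h
    have hk : todo.testBit k = true := by
      have := Nat.ne_of_beq_eq_false h1
      have h9 := mt land_bit_zero.2 this
      simpa using h9
    obtain ⟨k1, k2⟩ := hsub k hk
    obtain ⟨e1, e2, -⟩ := edgeOK_spec he
    have hI' := hI.step he k2
    have hL' := hL.step (i := i) (by omega) k1 k2
    have fin : ∀ lems' last' s', Ref T ((i + 256 * k) :: pat) → AllRef T lems' →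
        valLoop T rc pat col ncol i n (Nat.xor todo (bit k)) lems' last' s' ≠ 0 →
        ∀ k', todo.testBit k' = true → Ref T ((i + 256 * k') :: pat) := by
      intro lems' last' s' hr hl' hv k' hk'
      by_cases hkk : k = k'
      · rw [← hkk]; exact hr
      · refine ih _ _ _ _ hv (fun j hj => ?_) hl' k' ?_
        · rw [tb_xor, tb_bit] at hj
          by_cases hj' : k = j
          · rw [← hj']; exact ⟨k1, k2⟩
          · apply hsub; simpa [hj'] using hj
        · rw [tb_xor, tb_bit, hk']; simp [hkk]
    have pth : ∀ p, pathOK T (put (put col i k) (swp i) k) p = true → Ref T ((i + 256 * k) :: pat) :=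
      fun p hp c hb hm => pathOK_sound hT hb (hI'.colOK hb hm) hp
    cases h2 : Nat.beq ty 1
    swap
    · rw [h2, cond_true] at h
      obtain ⟨a, b⟩ := cond_ne h
      exact fin _ _ _ (pth _ a) hl b
    rw [h2, cond_false] at h
    cases h3 : Nat.beq ty 3
    swap
    · rw [h3, cond_true] at h
      generalize hr : rc (List.cons (Nat.add i (Nat.mul 256 k)) pat) (put (put col i k) (swp i) k)
        (cond (Nat.beq k ncol) (Nat.succ ncol) ncol) lems s1 = r at h
      cases r with
      | zero => exact absurd rfl h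
      | succ r =>
        have hR : Ref T ((i + 256 * k) :: pat) := by
          refine hrc _ _ _ _ s1 (ne_of_eq_of_ne hr (Nat.succ_ne_zero r)) hI' hL' ?_ hl
          cases Nat.beq k ncol
          · rw [cond_false]; omega
          · rw [cond_true]; omega
        exact fin _ _ _ hR (fa hR hl) h
    rw [h3, cond_false] at h
    cases h4 : Nat.beq ty 0
    · rw [h4, cond_false] at h
      obtain ⟨a, b⟩ := cond_ne h
      obtain ⟨q, hq, a'⟩ := nth_spec _ _ _ a
      exact fin _ _ _ (fun c hb hm => patOK_sound hb (hI'.colOK hb hm) (hl q hq) a') hl b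
    · rw [h4, cond_true] at h
      obtain ⟨a, b⟩ := cond_ne h
      exact fin _ _ _ (pth _ a) hl b

theorem check_succ (T n : Nat) (pat : List Nat) (col ncol : Nat) (lems : List (List Nat)) (s : Nat) :
    check T (n + 1) pat col ncol lems s =
      cond (edgeOK col ncol (Nat.land s 255))
        (valLoop T (check T n) pat col ncol (Nat.land s 255) 40 (todo0 col ncol (Nat.land s 255)) lems 0
          (Nat.shiftRight s 8)) 0 := by
  have h : check T (n + 1) = node T (check T n) := rfl
  rw [h, node, force_eq, force_eq, force_eq, force_eq]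

theorem check_ok {T : Nat} (hT : T ≤ 10) : ∀ n, RecOK T (check T n) := by
  intro n
  induction n with
  | zero => intro pat col ncol lems s h; exact absurd rfl h
  | succ n ih =>
    intro pat col ncol lems s h hI hL hn hl
    rw [check_succ] at h
    obtain ⟨a, b⟩ := cond_ne h
    exact branch hI hL a hn (valLoop_spec hT ih hI hL a _ _ _ _ _ b (fun k hk => todo0_sub hk) hl)

theorem build_cons (e : Nat) (pat : List Nat) : build (e :: pat) =
    cond (edgeOK (build pat) (Nat.shiftRight e 8) (Nat.land e 255))
      (put (put (build pat) (Nat.land e 255) (Nat.shiftRight e 8)) (swp (Nat.land e 255)) (Nat.shiftRight e 8))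
      (build pat) := rfl

theorem build_inv : ∀ pat : List Nat, Inv pat (build pat) := by
  intro pat
  induction pat with
  | nil =>
    have l0 : ∀ k, lab 0 k = 0 := by
      intro k; unfold lab; rw [land31, shr]; simp
    exact ⟨fun i _ h => absurd (l0 i) h, fun a => l0 _⟩
  | cons e pat ih =>
    rw [build_cons]
    cases h : edgeOK (build pat) (Nat.shiftRight e 8) (Nat.land e 255)
    · rw [cond_false]
      refine ⟨fun i hi hl => ?_, ih.2⟩
      obtain ⟨f, hf, hh⟩ := ih.1 i hi hl
      exact ⟨f, List.mem_cons_of_mem _ hf, hh⟩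
    · rw [cond_true]
      have := ih.step h le_rfl
      have h2 : Nat.land e 255 + 256 * Nat.shiftRight e 8 = e := by
        rw [land255, shr]; omega
      rw [h2] at this
      exact this

theorem labsOK_spec (ncol : Nat) : ∀ pat : List Nat, labsOK ncol pat = true → LabB pat ncol := by
  intro pat
  induction pat with
  | nil => intro _ e he; simp at he
  | cons e pat ih =>
    intro h
    have h' : cond (Nat.ble 1 (Nat.shiftRight e 8)) (cond (Nat.ble (Nat.succ (Nat.shiftRight e 8)) ncol)
      (labsOK ncol pat) false) false = true := h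
    have h1 : K e = Nat.shiftRight e 8 := by rw [shr]; rfl
    rw [← h1] at h'
    simp only [Bool.cond_eq_ite, Nat.ble_eq] at h'
    split_ifs at h' with a b
    intro f hf
    rcases List.mem_cons.1 hf with rfl | hf
    · exact ⟨a, b⟩
    · exact ih h' f hf

theorem run_sound {T : Nat} {pat : List Nat} (ncol : Nat) (lems : List (List Nat)) (s : Nat)
    (h : (Nat.ble T 10 && Nat.ble 1 ncol && run T pat ncol lems s) = true) (hl : AllRef T lems) :
    Ref T pat := by
  simp only [Bool.and_eq_true, Nat.ble_eq] at h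
  obtain ⟨⟨hT, hn⟩, h⟩ := h
  unfold run at h
  cases h1 : labsOK ncol pat
  · rw [h1] at h; simp at h
  rw [h1, cond_true, force_eq] at h
  exact check_ok hT 60 pat _ ncol lems s (by rw [Nat.eq_of_beq_eq_true h]; omega) (build_inv pat)
    (labsOK_spec ncol pat h1) hn hl

end Pool.Agent.H462Z.RB
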